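import Pool.Agent.Work.MP_562107_co.Final

namespace Pool.Agent.Results.MP_562107_co.SubleadingCoefficient

open Pool.Agent.Work.MP_562107_co

/-- For all `d ≥ 5` and `m ≥ 2` the series `F_{d,m}` has a principal part at `z = 1` of order
at most `d - 1`, and its second coefficient is `-4(d-4)` if `m ≥ 3` and `4(d-6)` if `m = 2`. -/
theorem result : ∀ d m : ℕ, 5 ≤ d → 2 ≤ m →
    (∃ c : ℕ → ℚ, IsPrincipalPart d m c) ∧
    ∀ c : ℕ → ℚ, IsPrincipalPart d m c →
      c 2 = if m = 2 then 4 * ((d : ℚ) - 6) else -4 * ((d : ℚ) - 4) := by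
  intro d m hd hm
  obtain ⟨k, rfl⟩ : ∃ k, d = k + 5 := ⟨d - 5, by omega⟩
  have hF := hasExp_F hm k
  constructor
  · obtain ⟨Q, hQ, _, _⟩ := hF
    obtain ⟨c, R, h⟩ := exists_principal (k + 4) (F (k + 5) m) Q hQ
    exact ⟨c, R, h⟩
  · rintro c ⟨R, hR⟩
    have h1 := hasExp_principal (k + 2) c R
    have h2 : HasExp (k + 4) (F (k + 5) m) (c 1) (c 2) := by
      rw [hR]
      exact h1
    have h3 := (hasExp_unique h2 hF).2
    rw [h3]
    push_cast
    split_ifs <;> ring

end Pool.Agent.Results.MP_562107_co.SubleadingCoefficient
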